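import Pool.Agent.H30.SL.CERA

set_option autoImplicit false

namespace Pool.Agent.H30.SL

open Finset

theorem getD_wd (s : G6) (i : Fin 6) : (wd s).getD i 0 = (s i : ℕ) := by
  fin_cases i <;> rfl

theorem key8 {α : Type} (F : α → ℕ → ℤ) (e : α) (a0 a1 a2 a3 a4 a5 a6 a7 : α)
    (n0 n1 n2 n3 n4 n5 n6 n7 : ℕ) :
    ((([a0, a1, a2, a3, a4, a5, a6, a7].zip [n0, n1, n2, n3, n4, n5, n6, n7]).map
      (fun t => F t.1 t.2)).sum) =
    ∑ i : Fin 8, F ([a0, a1, a2, a3, a4, a5, a6, a7].getD i e)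
      ([n0, n1, n2, n3, n4, n5, n6, n7].getD i 0) := by
  rw [Fin.sum_univ_eight]
  change F a0 n0 + (F a1 n1 + (F a2 n2 + (F a3 n3 + (F a4 n4 + (F a5 n5 + (F a6 n6 + (F a7 n7 + 0)))))))
    = F a0 n0 + F a1 n1 + F a2 n2 + F a3 n3 + F a4 n4 + F a5 n5 + F a6 n6 + F a7 n7
  ring

theorem t_CER : S_CER := by
  intro K _ _ c hc w hw
  obtain ⟨s, rfl⟩ := exists_wd w hw
  refine lin 8 RI (fun i g => hv (Hb.getD i 0) (wd g)) (fun g => c (wd g)) ?_ ?_ s
  · intro i t
    have h1 := hc (Rl.getD i []) (F3 i) (wd t) (wd_perm t)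
    rw [← F1 i, List.map_map] at h1
    rw [← h1]
    congr 1
    apply List.map_congr_left
    intro q _
    simp only [Function.comp, cmp_wd]
  · intro x
    have h1 := List.all_eq_true.1 chk_all (wd x) (List.mem_permutations'.2 (wd_perm x))
    unfold chk at h1
    rw [beq_iff_eq] at h1
    have h2 : ((Tb.zip Hb).map (fun t => (t.1.map (fun q => q.2.2 * hv t.2 (cmp (wd x) q.2.1))).sum)).sum
        = ∑ i, ((RI i).map (fun y => y.2 * hv (Hb.getD i 0) (wd (x * y.1⁻¹)))).sum := by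
      have h3 : ∀ i : Fin 8, ((RI i).map (fun y => y.2 * hv (Hb.getD i 0) (wd (x * y.1⁻¹)))).sum =
          ((Tb.getD i []).map (fun q => q.2.2 * hv (Hb.getD i 0) (cmp (wd x) q.2.1))).sum := by
        intro i
        have h4 := congrArg (List.map (fun q : List ℕ × ℤ => q.2 * hv (Hb.getD i 0) (cmp (wd x) q.1))) (F2 i)
        rw [List.map_map, List.map_map] at h4
        have h5 := congrArg List.sum h4
        have h6 : List.map (fun y : G6 × ℤ => y.2 * hv (Hb.getD i 0) (wd (x * y.1⁻¹))) (RI i)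
            = List.map ((fun q : List ℕ × ℤ => q.2 * hv (Hb.getD i 0) (cmp (wd x) q.1)) ∘
              fun q : G6 × ℤ => (wd q.1⁻¹, q.2)) (RI i) := by
          apply List.map_congr_left
          intro q _
          simp only [Function.comp, cmp_wd]
        rw [h6, h5]
        rfl
      simp only [h3]
      have hT : Tb = [Tb.getD 0 [], Tb.getD 1 [], Tb.getD 2 [], Tb.getD 3 [], Tb.getD 4 [],
        Tb.getD 5 [], Tb.getD 6 [], Tb.getD 7 []] := rfl
      have hH : Hb = [Hb.getD 0 0, Hb.getD 1 0, Hb.getD 2 0, Hb.getD 3 0, Hb.getD 4 0,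
        Hb.getD 5 0, Hb.getD 6 0, Hb.getD 7 0] := rfl
      have h7 := key8 (fun (t : List (List ℕ × List ℕ × ℤ)) (n : ℕ) =>
        (t.map (fun q => q.2.2 * hv n (cmp (wd x) q.2.1))).sum) []
        (Tb.getD 0 []) (Tb.getD 1 []) (Tb.getD 2 []) (Tb.getD 3 []) (Tb.getD 4 [])
        (Tb.getD 5 []) (Tb.getD 6 []) (Tb.getD 7 [])
        (Hb.getD 0 0) (Hb.getD 1 0) (Hb.getD 2 0) (Hb.getD 3 0) (Hb.getD 4 0)
        (Hb.getD 5 0) (Hb.getD 6 0) (Hb.getD 7 0)
      rw [← hT, ← hH] at h7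
      exact h7
    rw [h2] at h1
    have h6 := (ZMod.intCast_eq_intCast_iff' (∑ i, ((RI i).map (fun y => y.2 * hv (Hb.getD i 0) (wd (x * y.1⁻¹)))).sum)
      (if wd x = [0,1,2,3,4,5] then 1 else 0) 7).2 (by
        rw [show ((7 : ℕ) : ℤ) = 7 from rfl, h1]
        split_ifs <;> rfl)
    rw [h6]
    have h7 : wd x = [0,1,2,3,4,5] ↔ x = 1 := by
      constructor
      · intro h
        have h8 : wd x = wd 1 := by rw [h]; decide
        apply Equiv.ext
        intro i
        have h9 : (wd x).getD i 0 = (wd 1).getD i 0 := by rw [h8]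
        apply Fin.ext
        rw [getD_wd, getD_wd] at h9
        exact h9
      · rintro rfl
        decide
    by_cases hx : x = 1
    · rw [if_pos hx, if_pos (h7.2 hx)]; simp
    · rw [if_neg hx, if_neg (fun h => hx (h7.1 h))]; simp

end Pool.Agent.H30.SL
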