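import Pool.Agent.H30.SL.Stm
import Pool.Graph.R_seed8.Helper884.LieId.Defs

set_option autoImplicit false

namespace Pool.Agent.H30.SL

open Finset
open Pool.Agent.Helper884.LieId

attribute [local instance 100] LieRing.ofAssociativeRing

theorem exists_word {K : Type} [Field K] {d : ℕ} {x : FreeLieAlgebra K ℕ} (h : LieMono K d x) :
    ∃ l : List ℕ, l.length = d ∧ MW K l x := by
  induction h with
  | of i => exact ⟨[i], rfl, MW.of i⟩
  | lie _ _ h1 h2 =>
    obtain ⟨l, hl, hm⟩ := h1
    obtain ⟨l', hl', hm'⟩ := h2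
    exact ⟨l ++ l', by rw [List.length_append, hl, hl'], MW.lie hm hm'⟩

theorem mono_pos {K : Type} [Field K] {d : ℕ} {x : FreeLieAlgebra K ℕ} (h : LieMono K d x) :
    1 ≤ d := by
  induction h with
  | of i => exact le_rfl
  | lie _ _ h1 h2 => omega

theorem map_rn {K L M : Type} [Field K] [LieRing L] [LieAlgebra K L] [LieRing M] [LieAlgebra K M]
    (φ : L →ₗ⁅K⁆ M) (A : ℕ → L) (w : List ℕ) (x : L) :
    φ (rn A w x) = rn (fun i => φ (A i)) w (φ x) := by
  induction w with
  | nil => rfl
  | cons a w ih =>
    change φ ⁅A a, rn A w x⁆ = ⁅φ (A a), rn (fun i => φ (A i)) w (φ x)⁆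
    rw [LieHom.map_lie, ih]

/-- multilinear identities -/
theorem multi_zero {K : Type} [Field K] (hN : S_NRM) (D : ℕ) (hP : PD K true D)
    (g : FreeLieAlgebra K ℕ)
    (hg : g ∈ Submodule.span K {x | ∃ l' : List ℕ, l'.Perm (List.range (D + 1)) ∧ MW K l' x})
    (hv : ∀ a : ℕ → LieAlgebra.SpecialLinear.sl (Fin 3) K, FreeLieAlgebra.lift K a g = 0) :
    g = 0 := by
  classical
  have h1 : g ∈ Submodule.span K ((fun w => rn (FreeLieAlgebra.of K) w (FreeLieAlgebra.of K D)) ''
      ((List.range D).permutations.toFinset : Set (List ℕ))) := by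
    refine (Submodule.span_le.2 ?_) hg
    rintro x ⟨l', hl', hx⟩
    have h2 : l'.Perm (D :: List.range D) := by
      refine hl'.trans ?_
      rw [List.range_succ]
      exact List.perm_append_singleton _ _
    refine (Submodule.span_mono ?_) (hN K l' (List.range D) D x hx h2)
    rintro y ⟨w, hw, rfl⟩
    exact ⟨w, by simpa [List.mem_permutations] using hw, rfl⟩
  rw [Submodule.mem_span_image_finset_iff_exists_fun] at h1
  obtain ⟨c0, hc0⟩ := h1
  let c : List ℕ → K := fun w =>
    if h : w ∈ (List.range D).permutations.toFinset then c0 ⟨w, h⟩ else 0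
  have hc : ∑ w ∈ (List.range D).permutations.toFinset,
      c w • rn (FreeLieAlgebra.of K) w (FreeLieAlgebra.of K D) = g := by
    rw [← hc0, ← Finset.sum_coe_sort]
    refine Finset.sum_congr rfl fun i _ => ?_
    simp only [c]
    rw [dif_pos i.2]
  have h3 : ∀ w : List ℕ, w.Perm (List.range D) → c w = 0 := by
    apply hP c
    intro A hA
    have h4 := hv (fun i => ⟨A i, by
      rw [LieAlgebra.SpecialLinear.sl]
      exact hA rfl i⟩)
    rw [← hc, map_sum] at h4
    have h5 := congrArg (fun z => (LieAlgebra.SpecialLinear.sl (Fin 3) K).incl z) h4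
    simp only [map_sum, map_smul, map_rn, FreeLieAlgebra.lift_of_apply, map_zero] at h5
    exact h5
  rw [← hc]
  refine Finset.sum_eq_zero fun w hw => ?_
  rw [h3 w (by simpa [List.mem_permutations] using hw), zero_smul]

theorem Ph_add {K : Type} [Field K] (D : ℕ) (w : Fin D → ℕ) (f g : FreeLieAlgebra K ℕ) :
    Ph K D w (f + g) = Ph K D w f + Ph K D w g := by
  simp only [Ph, map_add, smul_add, Finset.sum_add_distrib]

theorem Ph_smul {K : Type} [Field K] (D : ℕ) (w : Fin D → ℕ) (c : K) (f : FreeLieAlgebra K ℕ) :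
    Ph K D w (c • f) = c • Ph K D w f := by
  simp only [Ph, map_smul, Finset.smul_sum]
  refine Finset.sum_congr rfl fun S _ => ?_
  rw [smul_comm]

theorem Ph_zero {K : Type} [Field K] (D : ℕ) (w : Fin D → ℕ) :
    Ph K D w (0 : FreeLieAlgebra K ℕ) = 0 := by
  simp only [Ph, map_zero, smul_zero, Finset.sum_const_zero]

theorem main_zero {K : Type} [Field K] [CharZero K] (hN : S_NRM) (hO : S_POL)
    (hP : ∀ D ≤ 6, PD K true D) : ∀ D ≤ 7, ∀ f ∈ DegLE K D,
    (∀ a : ℕ → LieAlgebra.SpecialLinear.sl (Fin 3) K, FreeLieAlgebra.lift K a f = 0) → f = 0 := by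
  intro D
  induction D with
  | zero =>
    intro _ f hf _
    have : {x : FreeLieAlgebra K ℕ | ∃ e ≤ 0, LieMono K e x} = ∅ := by
      ext x
      simp only [Set.mem_setOf_eq, Set.mem_empty_iff_false, iff_false]
      rintro ⟨e, he, hx⟩
      have := mono_pos hx
      omega
    rw [DegLE, this, Submodule.span_empty] at hf
    exact (Submodule.mem_bot K).1 hf
  | succ D ih =>
    intro hD f hf hv
    have hs : f ∈ Homog K (D + 1) ⊔ DegLE K D := by
      refine (Submodule.span_le.2 ?_) hf
      rintro x ⟨e, he, hx⟩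
      rcases Nat.lt_or_ge D e with h | h
      · obtain rfl : e = D + 1 := by omega
        exact Submodule.mem_sup_left (Submodule.subset_span hx)
      · exact Submodule.mem_sup_right (Submodule.subset_span ⟨e, h, hx⟩)
    obtain ⟨h, hh, g, hg, rfl⟩ := Submodule.mem_sup.1 hs
    have hPg : ∀ w : Fin (D + 1) → ℕ, Ph K (D + 1) w g = 0 := by
      intro w
      clear hv hf hs
      rw [DegLE] at hg
      induction hg using Submodule.span_induction with
      | mem x hx =>
        obtain ⟨e, he, hx⟩ := hx
        obtain ⟨l, hl, hm⟩ := exists_word hx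
        exact (hO K (D + 1) l x hm).1 (by omega) w
      | zero => exact Ph_zero _ _
      | add x y _ _ hx hy => rw [Ph_add, hx, hy, add_zero]
      | smul c x _ hx => rw [Ph_smul, hx, smul_zero]
    have hPh : ∀ w : Fin (D + 1) → ℕ, Ph K (D + 1) w h ∈
        Submodule.span K {x | ∃ l' : List ℕ, l'.Perm (List.range (D + 1)) ∧ MW K l' x} := by
      intro w
      clear hv hf hs
      rw [Homog] at hh
      induction hh using Submodule.span_induction with
      | mem x hx =>
        obtain ⟨l, hl, hm⟩ := exists_word hx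
        exact (hO K (D + 1) l x hm).2.1 hl w
      | zero => rw [Ph_zero]; exact Submodule.zero_mem _
      | add x y _ _ hx hy => rw [Ph_add]; exact Submodule.add_mem _ hx hy
      | smul c x _ hx => rw [Ph_smul]; exact Submodule.smul_mem _ _ hx
    have hz : ∀ w : Fin (D + 1) → ℕ, Ph K (D + 1) w h = 0 := by
      intro w
      refine multi_zero hN D (hP D (by omega)) _ (hPh w) ?_
      intro a
      have h1 : Ph K (D + 1) w h = Ph K (D + 1) w (h + g) := by
        rw [Ph_add, hPg w, add_zero]
      rw [h1, Ph, map_sum]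
      refine Finset.sum_eq_zero fun S _ => ?_
      rw [map_smul]
      have h2 : (FreeLieAlgebra.lift K a).comp (sub K (D + 1) w S) = FreeLieAlgebra.lift K
          (fun i => ∑ j ∈ S.filter (fun j => w j = i), a (j : ℕ)) := by
        apply FreeLieAlgebra.hom_ext
        intro i
        rw [LieHom.comp_apply, sub, FreeLieAlgebra.lift_of_apply, FreeLieAlgebra.lift_of_apply,
          map_sum]
        refine Finset.sum_congr rfl fun j _ => ?_
        rw [FreeLieAlgebra.lift_of_apply]
      rw [← LieHom.comp_apply, h2, hv, smul_zero]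
    have hb : ∃ N0 : ℕ, ∀ N ≥ N0, ∑ w : Fin (D + 1) → Fin N,
        back K (D + 1) (fun j => (w j : ℕ)) (Ph K (D + 1) (fun j => (w j : ℕ)) h)
          = ((D + 1).factorial : K) • h := by
      clear hv hf hPh hz hs
      rw [Homog] at hh
      induction hh using Submodule.span_induction with
      | mem x hx =>
        obtain ⟨l, hl, hm⟩ := exists_word hx
        refine ⟨l.sum + 1, fun N hN => (hO K (D + 1) l x hm).2.2 hl N fun i hi => ?_⟩
        have := List.le_sum_of_mem hi
        omega
      | zero =>
        refine ⟨0, fun N _ => ?_⟩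
        simp only [Ph_zero, map_zero, smul_zero, Finset.sum_const_zero]
      | add x y _ _ hx hy =>
        obtain ⟨N1, h1⟩ := hx
        obtain ⟨N2, h2⟩ := hy
        refine ⟨max N1 N2, fun N hN => ?_⟩
        simp only [Ph_add, map_add, Finset.sum_add_distrib, smul_add]
        rw [h1 N (le_trans (le_max_left _ _) hN), h2 N (le_trans (le_max_right _ _) hN)]
      | smul c x _ hx =>
        obtain ⟨N1, h1⟩ := hx
        refine ⟨N1, fun N hN => ?_⟩
        simp only [Ph_smul, map_smul]
        rw [← Finset.smul_sum, h1 N hN, smul_comm]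
    obtain ⟨N0, hb⟩ := hb
    have h3 := hb N0 le_rfl
    have h4 : ((D + 1).factorial : K) • h = 0 := by
      rw [← h3]
      refine Finset.sum_eq_zero fun w _ => ?_
      rw [hz, map_zero]
    have h5 : h = 0 := by
      rcases smul_eq_zero.1 h4 with h6 | h6
      · exact absurd h6 (by exact_mod_cast Nat.factorial_ne_zero _)
      · exact h6
    subst h5
    rw [zero_add] at hv ⊢
    exact ih (by omega) g hg hv

end Pool.Agent.H30.SL
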