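import Mathlib

set_option autoImplicit false

/-! CREW SL (helper30), MP_a9fd20_al : `m_3 = 8`, the least degree of a Lie identity of `sl_3`. -/

namespace Pool.Agent.H30.SL

open Finset

attribute [local instance 100] LieRing.ofAssociativeRing

/-- Lie monomials with the list of their letters. -/
inductive MW (K : Type) [Field K] : List ℕ → FreeLieAlgebra K ℕ → Prop
  | of (i : ℕ) : MW K [i] (FreeLieAlgebra.of K i)
  | lie {s t : List ℕ} {x y : FreeLieAlgebra K ℕ} :
      MW K s x → MW K t y → MW K (s ++ t) ⁅x, y⁆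

/-- the substitution `x_i ↦ ∑_{j ∈ S, w j = i} x_j` -/
noncomputable def sub (K : Type) [Field K] (D : ℕ) (w : Fin D → ℕ) (S : Finset (Fin D)) :
    FreeLieAlgebra K ℕ →ₗ⁅K⁆ FreeLieAlgebra K ℕ :=
  FreeLieAlgebra.lift K (fun i => ∑ j ∈ S.filter (fun j => w j = i), FreeLieAlgebra.of K (j : ℕ))

/-- the multilinear part of the substitution -/
noncomputable def Ph (K : Type) [Field K] (D : ℕ) (w : Fin D → ℕ) (f : FreeLieAlgebra K ℕ) :
    FreeLieAlgebra K ℕ := ∑ S : Finset (Fin D), (-1 : K) ^ (D - S.card) • sub K D w S f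

/-- the substitution `x_j ↦ x_(w j)` -/
noncomputable def back (K : Type) [Field K] (D : ℕ) (w : Fin D → ℕ) :
    FreeLieAlgebra K ℕ →ₗ⁅K⁆ FreeLieAlgebra K ℕ :=
  FreeLieAlgebra.lift K (fun j => if h : j < D then FreeLieAlgebra.of K (w ⟨j, h⟩) else 0)

/-- right-normed brackets -/
def rn {L : Type} [LieRing L] (A : ℕ → L) (w : List ℕ) (x : L) : L := w.foldr (fun a y => ⁅A a, y⁆) x

/-- composition of words -/
def cmp (t y : List ℕ) : List ℕ := y.map (fun j => t.getD j 0)

/-- the eight relations -/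
def Rl : List (List (List ℕ × ℤ)) :=
  [[([0,1,2,3,4,5], 1), ([0,1,2,4,3,5], 1), ([0,2,3,4,5,1], 1), ([0,2,4,3,5,1], 1)],
   [([0,1,2,3,4,5], 1), ([0,1,3,2,4,5], 1), ([5,4,2,3,1,0], 1), ([5,4,3,2,1,0], 1)],
   [([0,1,2,3,4,5], 1), ([0,1,2,3,5,4], 1), ([0,2,1,3,4,5], 1), ([0,2,1,3,5,4], 1)],
   [([0,1,2,3,4,5], 1), ([0,1,2,4,3,5], 1), ([1,0,2,3,4,5], 1), ([1,0,2,4,3,5], 1)],
   [([0,1,2,3,4,5], 1), ([0,2,3,4,1,5], 1), ([5,1,4,3,2,0], 1), ([5,4,3,2,1,0], 1)],
   [([0,1,2,3,4,5], 1), ([0,1,2,3,5,4], 1), ([1,0,2,3,4,5], 1), ([1,0,2,3,5,4], 1)],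
   [([0,1,2,3,4,5], 1), ([0,1,2,4,3,5], 1), ([0,1,3,2,4,5], 1), ([0,1,3,5,4,2], -1), ([0,3,1,2,4,5], 1), ([0,3,1,5,4,2], -1), ([0,3,5,1,4,2], -1), ([0,3,5,4,1,2], -1), ([2,1,0,3,4,5], -1), ([2,1,0,4,3,5], -1), ([2,1,4,0,3,5], -1), ([2,4,1,0,3,5], -1)],
   [([0,1,2,3,4,5], 1), ([0,1,2,4,3,5], 1), ([0,1,3,2,4,5], 1), ([0,1,3,5,4,2], -1), ([0,2,1,3,4,5], 1), ([0,2,1,4,3,5], 1), ([0,2,4,1,3,5], 1), ([3,1,0,2,4,5], -1), ([3,1,0,5,4,2], 1), ([3,1,5,0,4,2], 1), ([3,1,5,4,0,2], 1), ([3,5,1,0,4,2], 1), ([3,5,1,4,0,2], 1), ([3,5,4,1,0,2], 1)]]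

/-- POL (80 lines). Write a monomial with `d` leaves as `M (fun l => x_(i l))` with a multilinear map
`M : MultilinearMap K (fun _ : Fin d => FreeLieAlgebra K ℕ) (FreeLieAlgebra K ℕ)` (natural in the sense that
`φ (M v) = M (φ ∘ v)` for Lie homomorphisms `φ`; induction over `MW`). Then `sub` gives
`∑_{f : Fin d → S, w ∘ f = i} M (x ∘ f)` (`MultilinearMap.map_sum_finset`), and `∑_S (-1)^(D - |S|)` leaves
the `f` whose range is everything: none if `d < D`, the bijections if `d = D`. For (3) the sum over all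
`w : Fin D → Fin N` of the number of bijections `f` with `w ∘ f = i` is `D!`. -/
def S_POL : Prop := ∀ (K : Type) [Field K] (D : ℕ) (l : List ℕ) (T : FreeLieAlgebra K ℕ), MW K l T →
  (l.length < D → ∀ w : Fin D → ℕ, Ph K D w T = 0) ∧
  (l.length = D → ∀ w : Fin D → ℕ,
    Ph K D w T ∈ Submodule.span K {x | ∃ l' : List ℕ, l'.Perm (List.range D) ∧ MW K l' x}) ∧
  (l.length = D → ∀ N : ℕ, (∀ i ∈ l, i < N) →
    ∑ w : Fin D → Fin N, back K D (fun j => (w j : ℕ)) (Ph K D (fun j => (w j : ℕ)) T)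
      = (D.factorial : K) • T)

/-- NRM (60 lines). (a) `ad T` is in the span of the products `ad x_(w 1) ... ad x_(w k)`, `w` a
permutation of the letters of `T` (induction, `ad [U, V] = ad U ad V - ad V ad U`). (b) for `a` in the list
`l` of the letters of `T`, `l = a :: l'` up to permutation, `T` is in the span of `rn of w (of a)`, `w`
a permutation of `l'` (induction; `a` is in `V` or in `U`, `[U, V] = - [V, U]`; use (a) for the other one). -/
def S_NRM : Prop := ∀ (K : Type) [Field K] (l l' : List ℕ) (a : ℕ) (T : FreeLieAlgebra K ℕ), MW K l T →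
  l.Perm (a :: l') → T ∈ Submodule.span K {x | ∃ w : List ℕ, w.Perm l' ∧
    x = rn (FreeLieAlgebra.of K) w (FreeLieAlgebra.of K a)}

/-- the coefficient statement for `gl_3` (`g = false`) and for `sl_3` (`g = true`) -/
def PD (K : Type) [Field K] (g : Bool) (D : ℕ) : Prop := ∀ c : List ℕ → K,
  (∀ A : ℕ → Matrix (Fin 3) (Fin 3) K, (g = true → ∀ i, (A i).trace = 0) →
    ∑ w ∈ (List.range D).permutations.toFinset, c w • rn A w (A D) = 0) →
  ∀ w : List ℕ, w.Perm (List.range D) → c w = 0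

/-- EXT (50 lines). (1) From `gl_3` to `sl_3` : replace `A i` by `A i - (trace (A i) / 3) • 1`; for `1 ≤ D`
the values of the brackets do not change. (2) From `D + 1` to `D` : given `c` put `c' w' = c w` if
`w' = D :: w` and `0` otherwise; then `∑ c' w' rn A w' (A (D + 1)) = [A D, ∑ c w rn A'' w (A'' D)]` with
`A'' j = A j` for `j < D` and `A'' D = A (D + 1)`. -/
def S_EXT : Prop := ∀ (K : Type) [Field K] [CharZero K] (D : ℕ),
  (1 ≤ D → PD K false D → PD K true D) ∧ (PD K true (D + 1) → PD K true D)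

/-- EVA (60 lines). The eight relations from matrix units. For the relation `i` there are matrix
units `E_(m 0), ..., E_(m 5)`, `E_z` and an entry `q` (list below: row, column of each, 1-based), such that
for every permutation `s` of `0..5` the entry `q` of `[E_(m s0), [E_(m s1), ..., [E_(m s5), E_z]]]` is the
coefficient of `s` in the relation (0 if `s` is not there). Kernel check (`decide +kernel`) over the 720
words, with 3x3 integer matrices as lists; transfer to `K` by `Int.castRingHom`. The hypothesis for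
`A (t j) = E_(m j)`, `A 6 = E_z` gives the relation at `t` (reindex `w = cmp t s`).
0: 11 11 12 21 22 23 | 32 out 33
1: 11 11 12 21 23 32 | 33 out 33
2: 11 11 12 22 22 23 | 31 out 33
3: 11 11 12 22 22 23 | 33 out 13
4: 11 12 13 21 22 31 | 33 out 33
5: 11 11 12 23 33 33 | 21 out 23
6: 11 12 22 23 31 33 | 11 out 22
7: 11 12 21 23 32 33 | 11 out 33
(these are up to a left translation and a sign: the support was normalised) -/
def S_EVA : Prop := ∀ (K : Type) [Field K] [CharZero K] (c : List ℕ → K),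
  (∀ A : ℕ → Matrix (Fin 3) (Fin 3) K,
    ∑ w ∈ (List.range 6).permutations.toFinset, c w • rn A w (A 6) = 0) →
  ∀ r ∈ Rl, ∀ t : List ℕ, t.Perm (List.range 6) → (r.map (fun y => (y.2 : K) * c (cmp t y.1))).sum = 0

/-- CER. The relations have only the zero solution (certificate modulo 7). (helper30) -/
def S_CER : Prop := ∀ (K : Type) [Field K] [CharZero K] (c : List ℕ → K),
  (∀ r ∈ Rl, ∀ t : List ℕ, t.Perm (List.range 6) →
    (r.map (fun y => (y.2 : K) * c (cmp t y.1))).sum = 0) →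
  ∀ w : List ℕ, w.Perm (List.range 6) → c w = 0

end Pool.Agent.H30.SL
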